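import Pool.Agent.TH612.CF.Mn

set_option autoImplicit false

namespace Pool.Agent.U901.CFL

open Pool.Agent.TH612.CF

variable {k : ℕ}

/-- a sign vector with `k` entries `1` has a good permutation -/
theorem exists_good (v : Fin k ⊕ Fin k → ℝ) (hv : ∀ i, v i = 1 ∨ v i = -1)
    (hk : (Finset.univ.filter fun i => v i = 1).card = k) :
    ∃ π : Equiv.Perm (Fin k ⊕ Fin k), Good v π := by
  classical
  have hc1 : Fintype.card {i // v i = 1} = k := by
    rw [Fintype.card_subtype]; exact hk
  have hc2 : Fintype.card {i // ¬ v i = 1} = k := by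
    rw [Fintype.card_subtype_compl, hc1, Fintype.card_sum, Fintype.card_fin]
    omega
  let e1 : Fin k ≃ {i // v i = 1} := (Fintype.equivFinOfCardEq hc1).symm
  let e2 : Fin k ≃ {i // ¬ v i = 1} := (Fintype.equivFinOfCardEq hc2).symm
  refine ⟨(Equiv.sumCongr e1 e2).trans (Equiv.sumCompl fun i => v i = 1), fun j => ⟨?_, ?_⟩⟩
  · exact (e1 j).2
  · exact (hv _).resolve_left (e2 j).2

end Pool.Agent.U901.CFL
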